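import Pool.Agent.H6.LD.Stm
import Pool.Graph.R_pool_sql_team_seeded_3997aac3.Q58.WCS2.Tail

set_option autoImplicit false
open Filter Topology MeasureTheory

namespace Pool.Agent.H70.LD

open Pool.Agent.H6.LD

theorem t_ELL : S_ELL := by
  intro y
  exact Pool.Agent.Q58.WCS2.ell_sum y

theorem t_TLB : S_TLB := by
  intro ε hε
  have h4 : 0 < Real.log 4 := Real.log_pos (by norm_num)
  set L : ℝ := max 1 (2 * Real.log 4 / ε) with hL
  refine ⟨⌈Real.exp L⌉₊ + 2, ?_⟩
  intro y hy x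
  have hy2 : 2 ≤ y := by omega
  have h1 := Pool.Agent.Q58.WCS2.tl_le hy2 x
  refine h1.trans ?_
  have hexp : Real.exp L ≤ y := by
    calc Real.exp L ≤ (⌈Real.exp L⌉₊ : ℝ) := Nat.le_ceil _
      _ ≤ y := by exact_mod_cast (by omega : ⌈Real.exp L⌉₊ ≤ y)
  have hlog : L ≤ Real.log y := by
    rw [Real.le_log_iff_exp_le (by positivity)]
    exact hexp
  have hl1 : 1 ≤ Real.log y := (le_max_left _ _).trans hlog
  have hl2 : 2 * Real.log 4 / ε ≤ Real.log y := (le_max_right _ _).trans hlog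
  have hl0 : 0 < Real.log y := by linarith
  have h2 : 1 / (Real.log y) ^ 2 ≤ 1 / Real.log y := by
    apply one_div_le_one_div_of_le hl0
    nlinarith
  calc Real.log 4 * (1 / Real.log y + 1 / (Real.log y) ^ 2)
      ≤ Real.log 4 * (1 / Real.log y + 1 / Real.log y) := by gcongr
    _ = 2 * Real.log 4 / Real.log y := by ring
    _ ≤ ε := by
        rw [div_le_iff₀ hl0]
        rw [div_le_iff₀ hε] at hl2
        linarith

/-- fibres -/
lemma fib (φ a b : ℕ → ℕ) (h1 : ∀ k, 1 ≤ k → φ k ≤ 2 * k) (h2 : ∀ k, φ k ≤ k + 1)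
    (h3 : ∀ k, 1 ≤ k → (φ k).Prime → k = a (φ k) ∨ k = b (φ k)) (x : ℕ) :
    ∑ k ∈ Finset.Icc 1 x, (if (φ k).Prime then (1 : ℝ) / k else 0) ≤
      4 * ∑ p ∈ (Finset.Icc 1 (x + 1)).filter Nat.Prime, (1 : ℝ) / p := by
  rw [← Finset.sum_filter]
  have hmaps : ∀ k ∈ (Finset.Icc 1 x).filter (fun k => (φ k).Prime),
      φ k ∈ (Finset.Icc 1 (x + 1)).filter Nat.Prime := by
    intro k hk
    rw [Finset.mem_filter, Finset.mem_Icc] at hk
    rw [Finset.mem_filter, Finset.mem_Icc]
    exact ⟨⟨hk.2.one_lt.le, (h2 k).trans (by omega)⟩, hk.2⟩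
  rw [← Finset.sum_fiberwise_of_maps_to hmaps, Finset.mul_sum]
  refine Finset.sum_le_sum ?_
  intro p hp
  rw [Finset.mem_filter, Finset.mem_Icc] at hp
  have hp0 : (0 : ℝ) < p := by exact_mod_cast hp.2.pos
  have hcard : (((Finset.Icc 1 x).filter (fun k => (φ k).Prime)).filter (fun k => φ k = p)).card ≤ 2 := by
    refine (Finset.card_le_card ?_).trans (Finset.card_le_two (a := a p) (b := b p))
    intro k hk
    rw [Finset.mem_filter, Finset.mem_filter, Finset.mem_Icc] at hk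
    have := h3 k hk.1.1.1 hk.1.2
    rw [hk.2] at this
    simpa using this
  have hterm : ∀ k ∈ ((Finset.Icc 1 x).filter (fun k => (φ k).Prime)).filter (fun k => φ k = p),
      (1 : ℝ) / k ≤ 2 / p := by
    intro k hk
    rw [Finset.mem_filter, Finset.mem_filter, Finset.mem_Icc] at hk
    have hk0 : (0 : ℝ) < k := by exact_mod_cast hk.1.1.1
    have h4 := h1 k hk.1.1.1
    rw [hk.2] at h4
    have h5 : (p : ℝ) ≤ 2 * k := by exact_mod_cast h4
    rw [div_le_div_iff₀ hk0 hp0]
    linarith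
  refine (Finset.sum_le_card_nsmul _ _ _ hterm).trans ?_
  rw [nsmul_eq_mul]
  have hc : ((((Finset.Icc 1 x).filter (fun k => (φ k).Prime)).filter
    (fun k => φ k = p)).card : ℝ) ≤ 2 := by exact_mod_cast hcard
  calc _ ≤ 2 * (2 / (p : ℝ)) := by gcongr
    _ = 4 * (1 / (p : ℝ)) := by ring

lemma prime_sum (hT : S_TLB) (ε : ℝ) (hε : 0 < ε) : ∃ y : ℕ, ∀ X : ℕ,
    ∑ p ∈ (Finset.Icc 1 X).filter Nat.Prime, (1 : ℝ) / p ≤ y + ε * Real.log X := by
  obtain ⟨y0, hy0⟩ := hT ε hε
  refine ⟨y0, ?_⟩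
  intro X
  have hsub : (Finset.Icc 1 X).filter Nat.Prime ⊆ (Finset.Icc 1 y0) ∪ (Finset.Ioc y0 X).filter Nat.Prime := by
    intro p hp
    rw [Finset.mem_filter, Finset.mem_Icc] at hp
    rw [Finset.mem_union, Finset.mem_Icc, Finset.mem_filter, Finset.mem_Ioc]
    rcases le_or_gt p y0 with h | h
    · left; exact ⟨hp.1.1, h⟩
    · right; exact ⟨⟨h, hp.1.2⟩, hp.2⟩
  have h1 : ∑ p ∈ (Finset.Icc 1 X).filter Nat.Prime, (1 : ℝ) / p ≤
      ∑ p ∈ Finset.Icc 1 y0, (1 : ℝ) / p + ∑ p ∈ (Finset.Ioc y0 X).filter Nat.Prime, (1 : ℝ) / p := by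
    refine (Finset.sum_le_sum_of_subset_of_nonneg hsub (fun _ _ _ => by positivity)).trans ?_
    have := Finset.sum_union_inter (s₁ := Finset.Icc 1 y0) (s₂ := (Finset.Ioc y0 X).filter Nat.Prime)
      (f := fun p : ℕ => (1 : ℝ) / p)
    have h0 : 0 ≤ ∑ p ∈ Finset.Icc 1 y0 ∩ (Finset.Ioc y0 X).filter Nat.Prime, (1 : ℝ) / p :=
      Finset.sum_nonneg fun _ _ => by positivity
    linarith
  have h2 : ∑ p ∈ Finset.Icc 1 y0, (1 : ℝ) / p ≤ y0 := by
    calc ∑ p ∈ Finset.Icc 1 y0, (1 : ℝ) / p ≤ ∑ _p ∈ Finset.Icc 1 y0, (1 : ℝ) := by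
          refine Finset.sum_le_sum fun p hp => ?_
          rw [Finset.mem_Icc] at hp
          have : (1 : ℝ) ≤ p := by exact_mod_cast hp.1
          rw [div_le_one (by linarith)]
          exact this
      _ = y0 := by simp
  have h3 : ∑ p ∈ (Finset.Ioc y0 X).filter Nat.Prime, (1 : ℝ) / p ≤ Real.log X *
      ∑ p ∈ (Finset.Ioc y0 X).filter Nat.Prime, 1 / ((p : ℝ) * Real.log p) := by
    rw [Finset.mul_sum]
    refine Finset.sum_le_sum fun p hp => ?_
    rw [Finset.mem_filter, Finset.mem_Ioc] at hp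
    have hp1 : (1 : ℝ) < p := by exact_mod_cast hp.2.one_lt
    have hl : 0 < Real.log p := Real.log_pos hp1
    have hlX : Real.log p ≤ Real.log X := Real.log_le_log (by linarith) (by exact_mod_cast hp.1.2)
    rw [mul_one_div, div_le_div_iff₀ (by linarith) (by positivity)]
    nlinarith
  have h4 := hy0 y0 le_rfl X
  have h5 : 0 ≤ Real.log X := Real.log_natCast_nonneg X
  have h6 := mul_le_mul_of_nonneg_left h4 h5
  linarith

theorem t_EXC (hT : S_TLB) : S_EXC := by
  intro ε hε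
  obtain ⟨y, hy⟩ := prime_sum hT (ε / 48) (by positivity)
  refine ⟨max 2 ⌈Real.exp (24 * y / ε)⌉₊, ?_⟩
  intro x hx
  have hx2 : 2 ≤ x := (le_max_left _ _).trans hx
  have hx3 : ⌈Real.exp (24 * y / ε)⌉₊ ≤ x := (le_max_right _ _).trans hx
  have hx2' : (2 : ℝ) ≤ x := by exact_mod_cast hx2
  have hlx : 24 * y / ε ≤ Real.log x := by
    rw [Real.le_log_iff_exp_le (by linarith)]
    exact (Nat.le_ceil _).trans (by exact_mod_cast hx3)
  have hly : 12 * (y : ℝ) ≤ (ε / 2) * Real.log x := by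
    rw [div_le_iff₀ hε] at hlx
    linarith
  have hX := hy (x + 1)
  have hlog1 : Real.log ((x + 1 : ℕ) : ℝ) ≤ 2 * Real.log x := by
    have : Real.log ((x : ℝ) ^ 2) = 2 * Real.log x := by
      rw [Real.log_pow]; norm_num
    rw [← this]
    apply Real.log_le_log (by positivity)
    push_cast
    nlinarith
  set PS : ℝ := ∑ p ∈ (Finset.Icc 1 (x + 1)).filter Nat.Prime, (1 : ℝ) / p with hPS
  have hPS2 : PS ≤ y + (ε / 48) * (2 * Real.log x) := by
    refine hX.trans ?_
    gcongr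
  have hsum : LS Exc x ≤ 4 * PS + 4 * PS + 4 * PS := by
    have f1 := fib (fun k => k + 1) (fun p => p - 1) (fun p => p - 1)
      (fun k hk => by omega) (fun k => by omega) (fun k hk _ => by left; simp) x
    have f2 := fib (fun k => k / 2) (fun p => 2 * p) (fun p => 2 * p + 1)
      (fun k hk => by omega) (fun k => by omega) (fun k hk _ => by omega) x
    have f3 := fib (fun k => (k + 1) / 2) (fun p => 2 * p) (fun p => 2 * p - 1)
      (fun k hk => by omega) (fun k => by omega) (fun k hk _ => by omega) x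
    unfold LS
    rw [Finset.sum_filter]
    letI : DecidablePred Exc := fun k => Classical.propDecidable (Exc k)
    have hpt : ∀ k ∈ Finset.Icc 1 x, (if Exc k then (1 : ℝ) / k else 0) ≤
        (if (k + 1).Prime then (1 : ℝ) / k else 0) + (if (k / 2).Prime then (1 : ℝ) / k else 0) +
        (if ((k + 1) / 2).Prime then (1 : ℝ) / k else 0) := by
      intro k _
      have h0 : (0 : ℝ) ≤ 1 / k := by positivity
      by_cases hE : Exc k
      · rw [if_pos hE]
        rcases hE with h | h | h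
        · rw [if_pos h]
          have a1 : 0 ≤ (if (k / 2).Prime then (1 : ℝ) / k else 0) := by split_ifs <;> simp
          have a2 : 0 ≤ (if ((k + 1) / 2).Prime then (1 : ℝ) / k else 0) := by split_ifs <;> simp
          linarith
        · rw [if_pos h]
          have a1 : 0 ≤ (if (k + 1).Prime then (1 : ℝ) / k else 0) := by split_ifs <;> simp
          have a2 : 0 ≤ (if ((k + 1) / 2).Prime then (1 : ℝ) / k else 0) := by split_ifs <;> simp
          linarith
        · rw [if_pos h]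
          have a1 : 0 ≤ (if (k + 1).Prime then (1 : ℝ) / k else 0) := by split_ifs <;> simp
          have a2 : 0 ≤ (if (k / 2).Prime then (1 : ℝ) / k else 0) := by split_ifs <;> simp
          linarith
      · rw [if_neg hE]
        have a1 : 0 ≤ (if (k + 1).Prime then (1 : ℝ) / k else 0) := by split_ifs <;> simp
        have a2 : 0 ≤ (if (k / 2).Prime then (1 : ℝ) / k else 0) := by split_ifs <;> simp
        have a3 : 0 ≤ (if ((k + 1) / 2).Prime then (1 : ℝ) / k else 0) := by split_ifs <;> simp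
        linarith
    refine (Finset.sum_le_sum hpt).trans ?_
    rw [Finset.sum_add_distrib, Finset.sum_add_distrib]
    exact add_le_add (add_le_add f1 f2) f3
  linarith

end Pool.Agent.H70.LD
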